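import Pool.Agent.MP_3a0237_al.Construction

open Topology Filter Set

namespace Pool.Agent.Results.MP_3a0237_al.ZFCExample

/-- There is (in ZFC) a Hausdorff abelian paratopological group which is not a topological group
and which is countably pracompact, Baire, pseudocompact and 2-pseudocompact; so it satisfies
conditions (2), (3) and (4) of the problem simultaneously. -/
theorem result :
    ∃ (G : Type) (_ : CommGroup G) (_ : TopologicalSpace G),
      -- paratopological group, not a topological group
      ContinuousMul G ∧ ¬ IsTopologicalGroup G ∧
      -- Hausdorff and Baire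
      T2Space G ∧ BaireSpace G ∧
      -- countably pracompact: countably compact at a dense subset `A`
      (∃ A : Set G, Dense A ∧
        ∀ B : Set G, B ⊆ A → B.Infinite → ∃ x : G, ∀ U ∈ 𝓝 x, (U ∩ B).Infinite) ∧
      -- pseudocompact: locally finite families of nonempty open sets are finite
      (∀ (ι : Type) (U : ι → Set G), LocallyFinite U →
        (∀ i, IsOpen (U i) ∧ (U i).Nonempty) → Finite ι) ∧
      -- 2-pseudocompact
      (∀ U : ℕ → Set G, (∀ n, IsOpen (U n)) → (∀ n, (U n).Nonempty) → Antitone U →
        (⋂ n, closure ((U n)⁻¹)).Nonempty) :=
  Pool.Agent.MP_3a0237_al.Construction.exists_group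

end Pool.Agent.Results.MP_3a0237_al.ZFCExample
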